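import Pool.Agent.Q72.GN.Fin

/-!
Gonality of preimages of lines under maps of minimal degree: counterexamples in every positive
characteristic.

The surface is the intersection of the two divisors `∑ x_a y_a ^ p = 0` and `∑ x_a ^ p y_a = 0` in
the product of two projective planes, and the map is the projection to the first plane.
-/

open AlgebraicGeometry CategoryTheory
open Pool.Agent.Q72.GN

namespace Pool.Agent.Results.MP_83f7cc_ag.InseparableGonality

theorem result (p : ℕ) [Fact p.Prime] (k : Type) [Field k] [CharP k p] [IsAlgClosed k] :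
    ∃ (X : Scheme.{0}) (f : X ⟶ Spec (.of k)) (_ : IsIntegral X),
      Pool.Agent.Helper198.CurveFamily.IsSmoothProjectiveSurface f ∧
      ∃ h : Fin 3 → X.functionField, Dominant f h ∧ degree f h = p ∧
        (∀ h' : Fin 3 → X.functionField, Dominant f h' → degree f h ≤ degree f h') ∧
        ∃ (d : ℕ) (G : MvPolynomial (Fin 3) k), G.IsHomogeneous d ∧ G ≠ 0 ∧
          ∀ a : Fin 3 → k, MvPolynomial.eval a G ≠ 0 →
            ∃ ξ : X, IsGenericPoint ξ (closure {x : X | MapsToLine f h a x}) ∧
              gonality f ξ = 1 :=
  main p k

end Pool.Agent.Results.MP_83f7cc_ag.InseparableGonality
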